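import Pool.Agent.T9h44.NK.SpecA
import Pool.Agent.T9h44.NK.SpecB

set_option autoImplicit false

open Set
open scoped RealInnerProductSpace

namespace Pool.Agent.T9h71.NK

open Pool.Agent.T9h98.DC Pool.Agent.T9h44.NK

/-- a vertex is strictly exposed -/
theorem vx_fun {d : ℕ} {P : Set (E d)} {w : E d} (hw : Vx P w) :
    w ∈ P ∧ ∃ l : StrongDual ℝ (E d), ∀ y ∈ P, y ≠ w → l y < l w := by
  obtain ⟨l, hl⟩ := hw.2 (singleton_nonempty w)
  have hw0 : w ∈ ({w} : Set (E d)) := rfl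
  rw [hl] at hw0
  refine ⟨hw0.1, l, fun y hy hyw => lt_of_le_of_ne (hw0.2 y hy) fun h => hyw ?_⟩
  have : y ∈ ({w} : Set (E d)) := by
    rw [hl]
    exact ⟨hy, fun z hz => by rw [h]; exact hw0.2 z hz⟩
  exact this

theorem adj_mem {d : ℕ} {P : Set (E d)} {v y : E d} (h : Adj P v y) : v ∈ P ∧ y ∈ P :=
  ⟨h.2.2.subset (left_mem_segment ℝ v y), h.2.2.subset (right_mem_segment ℝ v y)⟩

theorem m0 : S_CONE → S_M0 := by
  intro hcone d P c hP hUV hEC hc v w hv hw hvw
  obtain ⟨hwP, l, hl⟩ := vx_fun hw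
  obtain ⟨S, b, hS, hsum⟩ := hcone d P v hP hv w hwP
  have h1 : ⟪v, w⟫ = 1 - (1 - c) * ∑ y ∈ S, b y := by
    have h2 : ⟪v, w - v⟫ = ∑ y ∈ S, b y * (c - 1) := by
      rw [hsum, inner_sum]
      refine Finset.sum_congr rfl fun y hy => ?_
      rw [real_inner_smul_right, inner_sub_right, hEC v y (hS y hy).1,
        real_inner_self_eq_norm_sq, hUV v hv]
      ring
    rw [inner_sub_right, real_inner_self_eq_norm_sq, hUV v hv, ← Finset.sum_mul] at h2
    linarith
  rw [h1]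
  by_contra hcon
  push Not at hcon
  have hL : ∑ y ∈ S, b y < 1 := by
    by_contra h
    push Not at h
    nlinarith
  have h3 : l w - l v = ∑ y ∈ S, b y * (l y - l v) := by
    rw [← map_sub, hsum, map_sum]
    refine Finset.sum_congr rfl fun y _ => ?_
    rw [map_smul, map_sub, smul_eq_mul]
  have h4 : ∑ y ∈ S, b y * (l y - l v) ≤ ∑ y ∈ S, b y * (l w - l v) := by
    refine Finset.sum_le_sum fun y hy => mul_le_mul_of_nonneg_left ?_ (hS y hy).2
    have hyP := (adj_mem (hS y hy).1).2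
    by_cases hyw : y = w
    · rw [hyw]
    · have := hl y hyP hyw
      linarith
  rw [← Finset.sum_mul] at h4
  have h5 : l v < l w := hl v (vx_fun hv).1 hvw
  nlinarith


end Pool.Agent.T9h71.NK
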