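import Pool.Agent.T9h44.NK.SpecA

set_option autoImplicit false

open Set
open scoped RealInnerProductSpace

namespace Pool.Agent.T9h71.NK

open Pool.Agent.T9h98.DC Pool.Agent.T9h44.NK

/-- a polytope is the hull of its finitely many extreme points -/
theorem hull_ext {d : ℕ} {P : Set (E d)} (hP : FP P) :
    (P.extremePoints ℝ).Finite ∧ P = convexHull ℝ (P.extremePoints ℝ) := by
  obtain ⟨s, rfl⟩ := hP
  have hfin : ((convexHull ℝ (s : Set (E d))).extremePoints ℝ).Finite :=
    s.finite_toSet.subset extremePoints_convexHull_subset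
  refine ⟨hfin, ?_⟩
  have h1 := closure_convexHull_extremePoints (s.finite_toSet.isCompact_convexHull ℝ)
    (convex_convexHull ℝ (s : Set (E d)))
  rw [(hfin.isClosed_convexHull ℝ).closure_eq] at h1
  exact h1.symm

theorem convex_cv {d : ℕ} (v n : E d) : Convex ℝ {y : E d | y = v ∨ 0 < ⟪y - v, n⟫} := by
  intro y hy z hz a b ha hb hab
  have h1 : a • y + b • z - v = a • (y - v) + b • (z - v) := by
    have : v = a • v + b • v := by rw [← add_smul, hab, one_smul]
    conv_lhs => rw [this]
    rw [smul_sub, smul_sub]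
    abel
  have key : ∀ y : E d, (y = v ∨ 0 < ⟪y - v, n⟫) → 0 ≤ ⟪y - v, n⟫ := by
    rintro y (rfl | h)
    · simp
    · exact h.le
  rcases ha.eq_or_lt with rfl | ha
  · rw [zero_add] at hab
    subst hab
    simpa using hz
  rcases hb.eq_or_lt with rfl | hb
  · rw [add_zero] at hab
    subst hab
    simpa using hy
  rcases hy with rfl | hy'
  · rcases hz with rfl | hz'
    · left
      rw [← add_smul, hab, one_smul]
    · right
      rw [h1, inner_add_left, real_inner_smul_left, real_inner_smul_left]
      simp only [sub_self, inner_zero_left, mul_zero, zero_add]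
      exact mul_pos hb hz'
  · right
    rw [h1, inner_add_left, real_inner_smul_left, real_inner_smul_left]
    have := key z hz
    have h2 := mul_pos ha hy'
    have h3 := mul_nonneg hb.le this
    linarith

theorem inv : S_INV := by
  intro d P v H hP hv hy hpres
  obtain ⟨hfin, hhull⟩ := hull_ext hP
  set X := P.extremePoints ℝ with hX
  set K : Set (E d) := {n | ∀ w ∈ X, w ≠ v → 1 ≤ ⟪w - v, n⟫} with hK
  have hKc : IsClosed K := by
    have : K = ⋂ w ∈ {w | w ∈ X ∧ w ≠ v}, {n : E d | 1 ≤ ⟪w - v, n⟫} := by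
      ext n
      simp [hK]
    rw [this]
    exact isClosed_biInter fun w _ => isClosed_le continuous_const (by fun_prop)
  have hKv : Convex ℝ K := by
    intro x hx y hy a b ha hb hab w hw hwv
    rw [inner_add_right, real_inner_smul_right, real_inner_smul_right]
    have h1 := mul_le_mul_of_nonneg_left (hx w hw hwv) ha
    have h2 := mul_le_mul_of_nonneg_left (hy w hw hwv) hb
    linarith
  have hKn : K.Nonempty := by
    obtain ⟨l, hl⟩ := hv.2 (singleton_nonempty v)
    have hvP : v ∈ P := by
      have : v ∈ ({v} : Set (E d)) := rfl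
      rw [hl] at this
      exact this.1
    have hvmax : ∀ y ∈ P, l y ≤ l v := by
      have : v ∈ ({v} : Set (E d)) := rfl
      rw [hl] at this
      exact this.2
    have hlt : ∀ y ∈ P, y ≠ v → l y < l v := by
      intro y hy hyv
      refine lt_of_le_of_ne (hvmax y hy) fun h => hyv ?_
      have : y ∈ ({v} : Set (E d)) := by
        rw [hl]
        exact ⟨hy, fun z hz => by rw [h]; exact hvmax z hz⟩
      exact this
    set a : E d := (InnerProductSpace.toDual ℝ (E d)).symm l with ha
    have hla : ∀ y, ⟪y, a⟫ = l y := by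
      intro y
      rw [real_inner_comm, ha, InnerProductSpace.toDual_symm_apply]
    have hpos : ∀ w ∈ X, w ≠ v → 0 < ⟪w - v, -a⟫ := by
      intro w hw hwv
      rw [inner_neg_right, inner_sub_left, hla, hla]
      have := hlt w hw.1 hwv
      linarith
    by_cases hemp : ({w | w ∈ X ∧ w ≠ v} : Set (E d)).Nonempty
    · obtain ⟨w0, hw0, hmin⟩ := (hfin.subset (fun w hw => hw.1) :
        ({w | w ∈ X ∧ w ≠ v} : Set (E d)).Finite).exists_minimalFor
          (fun w => ⟪w - v, -a⟫) _ hemp
      have h0 := hpos w0 hw0.1 hw0.2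
      refine ⟨(⟪w0 - v, -a⟫)⁻¹ • (-a), ?_⟩
      intro w hw hwv
      rw [real_inner_smul_right]
      have h1 : ⟪w0 - v, -a⟫ ≤ ⟪w - v, -a⟫ := by
        rcases le_total ⟪w0 - v, -a⟫ ⟪w - v, -a⟫ with h | h
        · exact h
        · exact hmin ⟨hw, hwv⟩ h
      rw [inv_mul_eq_div, one_le_div h0]
      exact h1
    · refine ⟨0, fun w hw hwv => absurd ⟨w, hw, hwv⟩ hemp⟩
  obtain ⟨n, hnK, hnmin⟩ := exists_norm_eq_iInf_of_complete_convex hKn hKc.isComplete hKv 0
  have hmin := (norm_eq_iInf_iff_real_inner_le_zero hKv hnK).mp hnmin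
  have hsup : Sup P v n := by
    intro y hy hyv
    have h1 : P ⊆ {y : E d | y = v ∨ 0 < ⟪y - v, n⟫} := by
      rw [hhull]
      refine convexHull_min ?_ (convex_cv v n)
      intro w hw
      by_cases hwv : w = v
      · exact Or.inl hwv
      · exact Or.inr (lt_of_lt_of_le zero_lt_one (hnK w hw hwv))
    rcases h1 hy with h | h
    · exact absurd h hyv
    · exact h
  refine ⟨n, ?_, hsup, ?_⟩
  · rintro rfl
    obtain ⟨y, hy, hyv⟩ := hy
    have := hsup y hy hyv
    simp at this
  · intro h hh hhv
    have hinvP : ∀ w ∈ X, h.symm w ∈ X := by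
      intro w hw
      have h2 : (h.symm : E d → E d) '' P = P :=
        hpres (h⁻¹ : E d ≃ₗᵢ[ℝ] E d) (H.inv_mem hh)
      refine ⟨?_, ?_⟩
      · rw [← h2]
        exact mem_image_of_mem _ hw.1
      · intro x hx y hy hxy
        have h3 : h '' P = P := hpres h hh
        have hx' : h x ∈ P := by rw [← h3]; exact mem_image_of_mem _ hx
        have hy' : h y ∈ P := by rw [← h3]; exact mem_image_of_mem _ hy
        have h4 : w ∈ openSegment ℝ (h x) (h y) := by
          obtain ⟨a, b, ha, hb, hab, he⟩ := hxy
          refine ⟨a, b, ha, hb, hab, ?_⟩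
          rw [← map_smul, ← map_smul, ← map_add, he, LinearIsometryEquiv.apply_symm_apply]
        have h5 := hw.2 hx' hy' h4
        rw [← h5, LinearIsometryEquiv.symm_apply_apply]
    have hhn : h n ∈ K := by
      intro w hw hwv
      have h1 : ⟪w - v, h n⟫ = ⟪h.symm w - v, n⟫ := by
        have h2 : w - v = h (h.symm w - v) := by
          rw [map_sub, LinearIsometryEquiv.apply_symm_apply, hhv]
        conv_lhs => rw [h2]
        rw [LinearIsometryEquiv.inner_map_map]
      rw [h1]
      refine hnK _ (hinvP w hw) ?_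
      intro h3
      apply hwv
      rw [← hhv, ← h3, LinearIsometryEquiv.apply_symm_apply]
    have h1 := hmin _ hhn
    rw [zero_sub, inner_neg_left, inner_sub_right, real_inner_self_eq_norm_sq] at h1
    have h2 : ‖h n - n‖ ^ 2 ≤ 0 := by
      rw [norm_sub_sq_real, LinearIsometryEquiv.norm_map, real_inner_comm]
      linarith
    have h3 : ‖h n - n‖ = 0 := by
      have := sq_nonneg ‖h n - n‖
      exact pow_eq_zero_iff (two_ne_zero) |>.mp (le_antisymm h2 this)
    exact sub_eq_zero.mp (norm_eq_zero.mp h3)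


end Pool.Agent.T9h71.NK
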