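import Pool.Agent.T9h71.NK.M0

set_option autoImplicit false

open Set
open scoped RealInnerProductSpace

namespace Pool.Agent.T9h71.NK

open Pool.Agent.T9h98.DC Pool.Agent.T9h44.NK

/-- the points of an inscribed polytope have norm at most one -/
theorem norm_le_of_UV (hF : S_FACES) {d : ℕ} {P : Set (E d)} (hP : IsPolytope P) (hUV : UV P)
    {y : E d} (hy : y ∈ P) : ‖y‖ ≤ 1 := by
  have hFP : FP P := hP.1
  obtain ⟨h1, -, -, -, h5, -⟩ := hF d P hFP
  have hface := (h5 ⟨y, hy⟩).1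
  have h2 := (h1 P hface).2
  have h3 : P ⊆ Metric.closedBall (0 : E d) 1 := by
    rw [h2]
    refine convexHull_min ?_ (convex_closedBall 0 1)
    rintro v ⟨hv, -⟩
    rw [mem_closedBall_zero_iff, hUV v hv]
  have := h3 hy
  rwa [mem_closedBall_zero_iff] at this

theorem m1 : S_FACES → S_NB → S_M1 := by
  intro hF hNB d P v ι c hP hUV hEC hc1 hc2 hv hι
  have h1c : 0 < 1 - c := by linarith
  have h2c : 0 < 1 + c := by linarith
  obtain ⟨l, hl⟩ : ∃ l : ℝ, l = Real.sqrt ((1 - c) / (1 + c)) := ⟨_, rfl⟩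
  have hl0 : 0 < l := by
    rw [hl]
    exact Real.sqrt_pos.mpr (div_pos h1c h2c)
  have hl2 : l ^ 2 * (1 + c) = 1 - c := by
    rw [hl, Real.sq_sqrt (div_pos h1c h2c).le]
    field_simp
  have hv1 : ‖v‖ = 1 := hUV v hv
  have hvv : ⟪v, v⟫ = 1 := by rw [real_inner_self_eq_norm_sq, hv1]; norm_num
  have hv0 : v ≠ 0 := by
    rintro rfl
    simp at hv1
  have hSup : Sup P v (-l • v) := by
    intro y hy hyv
    rw [real_inner_smul_right, inner_sub_left, hvv]
    have h1 : ‖y‖ ≤ 1 := norm_le_of_UV hF hP hUV hy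
    have h2 : 0 < ‖y - v‖ := norm_pos_iff.mpr (sub_ne_zero.mpr hyv)
    have h3 := norm_sub_sq_real y v
    rw [hv1] at h3
    have h4 : ‖y‖ ^ 2 ≤ 1 := by nlinarith [norm_nonneg y]
    have h5 : 0 < ‖y - v‖ ^ 2 := by positivity
    nlinarith
  have hOrt : Ort (-l • v) ι := by
    intro x
    rw [real_inner_smul_left, hι x, mul_zero]
  have hne : -l • v ≠ 0 := smul_ne_zero (neg_ne_zero.mpr hl0.ne') hv0
  have key : ∀ y x, Adj P v y → Pr v (-l • v) ι y x →
      ∃ t : ℝ, t * l = 1 - c ∧ t • ι x = y - c • v := by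
    rintro y x hy ⟨t, ht, hyx⟩
    have h1 : ⟪v, y - v⟫ = c - 1 := by
      rw [inner_sub_right, hEC v y hy, hvv]
    have h2 : t * l = 1 - c := by
      rw [hyx, real_inner_smul_right, inner_add_right, real_inner_smul_right, hvv, hι x] at h1
      linarith
    refine ⟨t, h2, ?_⟩
    have h3 : t • ι x = y - v + (t * l) • v := by
      rw [hyx, smul_add, smul_smul, mul_neg, neg_smul]
      abel
    rw [h3, h2, sub_smul, one_smul]
    abel
  have hpr : ∀ y y' x x', Adj P v y → Adj P v y' → Pr v (-l • v) ι y x →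
      Pr v (-l • v) ι y' x' → ⟪x, x'⟫ * (1 - c ^ 2) = ⟪y, y'⟫ - c ^ 2 := by
    intro y y' x x' hy hy' hx hx'
    obtain ⟨t, ht, h1⟩ := key y x hy hx
    obtain ⟨t', ht', h1'⟩ := key y' x' hy' hx'
    have htt : t' = t := by
      have : t' * l = t * l := by rw [ht, ht']
      exact mul_right_cancel₀ hl0.ne' this
    subst htt
    have h2 : ⟪t' • ι x, t' • ι x'⟫ = t' ^ 2 * ⟪x, x'⟫ := by
      rw [real_inner_smul_left, real_inner_smul_right, LinearIsometry.inner_map_map]
      ring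
    have h3 : ⟪y - c • v, y' - c • v⟫ = ⟪y, y'⟫ - c ^ 2 := by
      have hyv : ⟪y, v⟫ = c := by
        rw [real_inner_comm]
        exact hEC v y hy
      rw [inner_sub_left, inner_sub_right, inner_sub_right, real_inner_smul_left,
        real_inner_smul_right, real_inner_smul_left, real_inner_smul_right, hvv,
        hEC v y' hy', hyv]
      ring
    have h4 : t' ^ 2 = 1 - c ^ 2 := by
      have h5 : t' ^ 2 * l ^ 2 = (1 - c) ^ 2 := by rw [← mul_pow, ht]
      have h6 : t' ^ 2 * (1 - c) = (1 - c) * (1 - c ^ 2) := by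
        calc t' ^ 2 * (1 - c) = t' ^ 2 * l ^ 2 * (1 + c) := by rw [← hl2]; ring
          _ = _ := by rw [h5]; ring
      have h7 : (t' ^ 2 - (1 - c ^ 2)) * (1 - c) = 0 := by linarith
      rcases mul_eq_zero.mp h7 with h8 | h8
      · linarith
      · linarith
    rw [← h3, ← h1, ← h1', h2, h4]
    ring
  refine ⟨l, hl0, hSup, hOrt, hne, ?_, hpr⟩
  intro x hx
  obtain ⟨y, hy, hyx⟩ := (hNB d P v (-l • v) ι hP hv hSup hne hOrt).2.1 x hx
  have h1 := hpr y y x x hy hy hyx hyx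
  have hyV : Vx P y := ((hF (d + 1) P hP.1).2.2.2.2.2.2.2.2.1 v y hy).2.1
  rw [real_inner_self_eq_norm_sq, real_inner_self_eq_norm_sq, hUV y hyV] at h1
  have h2 : 0 < 1 - c ^ 2 := by nlinarith
  have h3 : ‖x‖ ^ 2 = 1 := by
    have h4 : (‖x‖ ^ 2 - 1) * (1 - c ^ 2) = 0 := by linarith
    rcases mul_eq_zero.mp h4 with h5 | h5
    · linarith
    · linarith
  have h4 : (‖x‖ - 1) * (‖x‖ + 1) = 0 := by linarith
  rcases mul_eq_zero.mp h4 with h5 | h5
  · linarith
  · have := norm_nonneg x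
    linarith


end Pool.Agent.T9h71.NK
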