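import Pool.Agent.T9h98.NK.SpecS

set_option autoImplicit false

open Set
open scoped RealInnerProductSpace

namespace Pool.Agent.T9h71.NK

open Pool.Agent.T9h98.DC Pool.Agent.T9h44.NK Pool.Agent.T9h98.NK

/-- `‖p‖²` times the inner product of the components orthogonal to `p` -/
noncomputable def J {d : ℕ} (p q q' : E d) : ℝ := ⟪q, q'⟫ * ⟪p, p⟫ - ⟪q, p⟫ * ⟪q', p⟫

theorem J_lin {d : ℕ} (p q q' : E d) (a b a' b' : ℝ) :
    J (-p) (a • p + b • q) (a' • p + b' • q') = b * b' * J p q q' := by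
  unfold J
  simp only [inner_add_left, inner_add_right, real_inner_smul_left, real_inner_smul_right,
    inner_neg_left, inner_neg_right]
  rw [real_inner_comm q' p]
  ring

theorem key (hE : S_EDGE) {D : ℕ} {P : Set (E (D + 1))} (hP : IsPolytope P)
    {v w y y' : E (D + 1)} (hy : Cor P v w y) (hy' : Cor P v w y') :
    ∃ (z z' : E (D + 1)) (b b' : ℝ), 0 < b ∧ 0 < b' ∧ Cor P w v z ∧ Cor P w v z' ∧
      J (v - w) (z - w) (z' - w) = b * b' * J (w - v) (y - v) (y' - v) ∧
      J (v - w) (z - w) (z - w) = b * b * J (w - v) (y - v) (y - v) ∧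
      J (v - w) (z' - w) (z' - w) = b' * b' * J (w - v) (y' - v) (y' - v) := by
  obtain ⟨z, hz, ⟨a, b, -, hb, h1⟩, -⟩ := hE D P hP v w y hy
  obtain ⟨z', hz', ⟨a', b', -, hb', h1'⟩, -⟩ := hE D P hP v w y' hy'
  have e0 : v - w = -(w - v) := by abel
  have e1 : z - w = (a - 1) • (w - v) + b • (y - v) := by
    have : z - w = (z - v) - (w - v) := by abel
    rw [this, h1, sub_smul, one_smul]
    abel
  have e2 : z' - w = (a' - 1) • (w - v) + b' • (y' - v) := by
    have : z' - w = (z' - v) - (w - v) := by abel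
    rw [this, h1', sub_smul, one_smul]
    abel
  refine ⟨z, z', b, b', hb, hb', hz, hz', ?_, ?_, ?_⟩
  · rw [e0, e1, e2, J_lin]
  · rw [e0, e1, J_lin]
  · rw [e0, e2, J_lin]

/-- if both ends coincide -/
theorem same {K G K1 b b' : ℝ} (hK : 0 < K) (hb : 0 < b) (hb' : 0 < b')
    (h1 : K1 = b * b' * G) (h2 : K1 = b * b * K) (h3 : K1 = b' * b' * K) : G = K := by
  have h4 : b * b = b' * b' := by
    have : b * b * K = b' * b' * K := by rw [← h2, h3]
    exact mul_right_cancel₀ hK.ne' this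
  have h5 : b = b' := by nlinarith
  subst h5
  have : b * b * G = b * b * K := by rw [← h1, h2]
  exact mul_left_cancel₀ (by positivity) this

section S
variable {D : ℕ} {P : Set (E (D + 1))} {v w y y' : E (D + 1)} {g e : ℝ}

theorem gS (hD : 3 ≤ D) (h : LocS P v g e) : -1 < g := by
  have h1 := h.ggt
  have hD' : (3 : ℝ) ≤ D := by exact_mod_cast hD
  have : -1 / (D : ℝ) ≥ -1 := by
    rw [ge_iff_le, le_div_iff₀ (by linarith)]
    linarith
  linarith

theorem sqS (h : LocS P v g e) (hy : Adj P v y) : ⟪y - v, y - v⟫ = e ^ 2 := by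
  rw [real_inner_self_eq_norm_sq, h.len y hy]

theorem S1 (h : LocS P v g e) (hy : Cor P v w y) :
    J (w - v) (y - v) (y - v) = e ^ 4 * ((1 - g) * (1 + g)) := by
  unfold J
  rw [sqS h hy.1, sqS h hy.2.1, real_inner_comm, (h.cor w y hy.1 hy.2.1 hy.2.2.1).2]
  ring

theorem S2 (h : LocS P v g e) (hy : Cor P v w y) (hy' : Cor P v w y') (hne : y ≠ y') :
    J (w - v) (y - v) (y' - v) = e ^ 4 * (g * (1 - g)) := by
  unfold J
  rw [sqS h hy.1, (h.cor y y' hy.2.1 hy'.2.1 hne).2, real_inner_comm (w - v) (y - v),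
    real_inner_comm (w - v) (y' - v), (h.cor w y hy.1 hy.2.1 hy.2.2.1).2,
    (h.cor w y' hy'.1 hy'.2.1 hy'.2.2.1).2]
  ring

theorem S_ex (hD : 3 ≤ D) (h : LocS P v g e) (hw : Adj P v w) :
    ∃ y y', y ≠ y' ∧ Cor P v w y ∧ Cor P v w y' := by
  classical
  have h1 : (({w} : Finset (E (D + 1))) : Set (E (D + 1))).ncard < {y | Adj P v y}.ncard := by
    rw [h.num, ncard_coe_finset, Finset.card_singleton]
    omega
  obtain ⟨y, hy, hyw⟩ := exists_mem_notMem_of_ncard_lt_ncard h1 (Finset.finite_toSet _)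
  have h2 : (({w, y} : Finset (E (D + 1))) : Set (E (D + 1))).ncard < {y | Adj P v y}.ncard := by
    rw [h.num, ncard_coe_finset]
    have := Finset.card_le_two (a := w) (b := y)
    omega
  obtain ⟨y', hy', hyw'⟩ := exists_mem_notMem_of_ncard_lt_ncard h2 (Finset.finite_toSet _)
  simp only [Finset.coe_singleton, mem_singleton_iff] at hyw
  simp only [Finset.coe_insert, Finset.coe_singleton, mem_insert_iff, mem_singleton_iff,
    not_or] at hyw'
  exact ⟨y, y', fun h => hyw'.2 h.symm, (h.cor w y hw hy (fun h => hyw h.symm)).1,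
    (h.cor w y' hw hy' (fun h => hyw'.1 h.symm)).1⟩

theorem sqX (h : LocX P v g e) (hy : Adj P v y) : ⟪y - v, y - v⟫ = e ^ 2 := by
  rw [real_inner_self_eq_norm_sq, h.len y hy]

/-- in type X the inner product at a corner is `g e²` -/
theorem corX (h : LocX P v g e) (hy : Cor P v w y) : ⟪w - v, y - v⟫ = g * e ^ 2 := by
  obtain ⟨s, hs⟩ := h.opp
  obtain ⟨-, -, -, h4, h5⟩ := hs w hy.1
  refine (h5 y hy.2.1 (fun h => hy.2.2.1 h.symm) ?_).2
  intro hyw
  rw [← hyw] at h4
  exact h4 hy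

theorem X1 (h : LocX P v g e) (hy : Cor P v w y) :
    J (w - v) (y - v) (y - v) = e ^ 4 * ((1 - g) * (1 + g)) := by
  unfold J
  rw [sqX h hy.1, sqX h hy.2.1, real_inner_comm, corX h hy]
  ring

theorem X2 (h : LocX P v g e) (hy : Cor P v w y) (hy' : Cor P v w y') (hne : y ≠ y') :
    J (w - v) (y - v) (y' - v) = e ^ 4 * (g * (1 - g)) ∨
      J (w - v) (y - v) (y' - v) = -(e ^ 4 * (1 - g) ^ 2) := by
  obtain ⟨s, hs⟩ := h.opp
  obtain ⟨-, -, h3, -, h5⟩ := hs y hy.2.1
  by_cases ho : y' = v + s - (y - v)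
  · right
    have h6 : y' - v = s - (y - v) := by rw [ho]; abel
    unfold J
    rw [sqX h hy.1, real_inner_comm (w - v) (y - v), corX h hy, real_inner_comm (w - v) (y' - v),
      corX h hy', h6, h3]
    ring
  · left
    unfold J
    rw [sqX h hy.1, real_inner_comm (w - v) (y - v), corX h hy, real_inner_comm (w - v) (y' - v),
      corX h hy', (h5 y' hy'.2.1 (fun h => hne h.symm) ho).2]
    ring

/-- there are a positive and a negative pair -/
theorem X_ex (hD : 3 ≤ D) (h : LocX P v g e) (hw : Adj P v w) :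
    (∃ y y', Cor P v w y ∧ Cor P v w y' ∧
      J (w - v) (y - v) (y' - v) = e ^ 4 * (g * (1 - g))) ∧
    ∃ y y', Cor P v w y ∧ Cor P v w y' ∧
      J (w - v) (y - v) (y' - v) = -(e ^ 4 * (1 - g) ^ 2) := by
  classical
  obtain ⟨s, hs⟩ := h.opp
  obtain ⟨w1, w2, w3, w4, w5⟩ := hs w hw
  have hc : ∀ y, Adj P v y → y ≠ w → y ≠ v + s - (w - v) → Cor P v w y :=
    fun y hy h1 h2 => (w5 y hy h1 h2).1
  have h1 : (({w, v + s - (w - v)} : Finset (E (D + 1))) : Set (E (D + 1))).ncard <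
      {y | Adj P v y}.ncard := by
    rw [h.num, ncard_coe_finset]
    have := Finset.card_le_two (a := w) (b := v + s - (w - v))
    omega
  obtain ⟨y, hy, hyw⟩ := exists_mem_notMem_of_ncard_lt_ncard h1 (Finset.finite_toSet _)
  simp only [Finset.coe_insert, Finset.coe_singleton, mem_insert_iff, mem_singleton_iff,
    not_or] at hyw
  obtain ⟨y1, y2, y3, y4, y5⟩ := hs y hy
  have hcy := hc y hy hyw.1 hyw.2
  constructor
  · have h2 : (({w, v + s - (w - v), y, v + s - (y - v)} : Finset (E (D + 1))) :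
        Set (E (D + 1))).ncard < {y | Adj P v y}.ncard := by
      rw [h.num, ncard_coe_finset]
      have := Finset.card_le_four (a := w) (b := v + s - (w - v)) (c := y) (d := v + s - (y - v))
      omega
    obtain ⟨y', hy', hyw'⟩ := exists_mem_notMem_of_ncard_lt_ncard h2 (Finset.finite_toSet _)
    simp only [Finset.coe_insert, Finset.coe_singleton, mem_insert_iff, mem_singleton_iff,
      not_or] at hyw'
    have hcy' := hc y' hy' hyw'.1 hyw'.2.1
    refine ⟨y, y', hcy, hcy', ?_⟩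
    unfold J
    rw [sqX h hw, real_inner_comm (w - v) (y - v), corX h hcy, real_inner_comm (w - v) (y' - v),
      corX h hcy', (y5 y' hy' hyw'.2.2.1 hyw'.2.2.2).2]
    ring
  · have hne1 : v + s - (y - v) ≠ w := by
      intro h6
      apply hyw.2
      rw [← h6]
      abel
    have hne2 : v + s - (y - v) ≠ v + s - (w - v) := by
      intro h6
      apply hyw.1
      have h7 : y - v = w - v := sub_right_injective h6
      exact sub_left_injective h7
    have hcy' := hc _ y1 hne1 hne2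
    refine ⟨y, _, hcy, hcy', ?_⟩
    have h6 : (v + s - (y - v)) - v = s - (y - v) := by abel
    unfold J
    rw [sqX h hw, real_inner_comm (w - v) (y - v), corX h hcy,
      real_inner_comm (w - v) ((v + s - (y - v)) - v), corX h hcy', h6, y3]
    ring

/-- in type C all pairs are negative -/
theorem C2 (hD : 3 ≤ D) (h : LocC P v g) (hy : Cor P v w y) (hy' : Cor P v w y') (hne : y ≠ y') :
    J (w - v) (y - v) (y' - v) < 0 := by
  have h1 := h.cor w y hy
  have h2 := h.cor w y' hy'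
  have h3 := h.cor2 w y y' hy hy' hne
  have h4 : 0 < ‖w - v‖ := norm_pos_iff.mpr (sub_ne_zero.mpr (fun h => hy.1.1 h.symm))
  have h5 : 0 < ‖y - v‖ := norm_pos_iff.mpr (sub_ne_zero.mpr (fun h => hy.2.1.1 h.symm))
  have h6 : 0 < ‖y' - v‖ := norm_pos_iff.mpr (sub_ne_zero.mpr (fun h => hy'.2.1.1 h.symm))
  have h7 : 0 < 1 - g := by linarith [h.glt]
  have h8 : J (w - v) (y - v) (y' - v) =
      -(‖w - v‖ ^ 2 * (‖y - v‖ * ‖y' - v‖) * (1 - g) ^ 2) := by
    unfold J
    rw [real_inner_comm (w - v) (y - v), h1, real_inner_comm (w - v) (y' - v), h2, h3,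
      real_inner_self_eq_norm_sq]
    ring
  rw [h8]
  have : 0 < ‖w - v‖ ^ 2 * (‖y - v‖ * ‖y' - v‖) * (1 - g) ^ 2 := by positivity
  linarith

end S

/-- comparison of the positive values -/
theorem cmp {g g' e e' b b' : ℝ} (hg : -1 < g) (hg1 : g < 1) (hg' : -1 < g') (hg1' : g' < 1)
    (he : 0 < e) (he' : 0 < e') (hb : 0 < b) (hb' : 0 < b')
    (h1 : e' ^ 4 * (g' * (1 - g')) = b * b' * (e ^ 4 * (g * (1 - g))))
    (h2 : e' ^ 4 * ((1 - g') * (1 + g')) = b * b * (e ^ 4 * ((1 - g) * (1 + g))))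
    (h3 : e' ^ 4 * ((1 - g') * (1 + g')) = b' * b' * (e ^ 4 * ((1 - g) * (1 + g)))) : g = g' := by
  have k1 : 0 < 1 - g := by linarith
  have k2 : 0 < 1 + g := by linarith
  have k3 : 0 < 1 - g' := by linarith
  have k4 : 0 < 1 + g' := by linarith
  have h4 : b * b = b' * b' := by
    have : b * b * (e ^ 4 * ((1 - g) * (1 + g))) = b' * b' * (e ^ 4 * ((1 - g) * (1 + g))) := by
      rw [← h2, h3]
    exact mul_right_cancel₀ (by positivity) this
  have h5 : b = b' := by nlinarith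
  subst h5
  have h6 : (e' ^ 4 * (g' * (1 - g'))) * (b * b * (e ^ 4 * ((1 - g) * (1 + g)))) =
      (b * b * (e ^ 4 * (g * (1 - g)))) * (e' ^ 4 * ((1 - g') * (1 + g'))) := by
    rw [h1, h2]
  have h7 : (e' ^ 4 * e ^ 4 * (b * b) * (1 - g) * (1 - g')) * (g' * (1 + g)) =
      (e' ^ 4 * e ^ 4 * (b * b) * (1 - g) * (1 - g')) * (g * (1 + g')) := by
    linear_combination h6
  have h8 := mul_left_cancel₀ (by positivity) h7
  linarith

theorem ms : S_EDGE → S_MS := by
  intro hE D P hD hP v w hvw g e g' e'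
  have hposK : ∀ g e : ℝ, -1 < g → g < 1 → 0 < e → 0 < e ^ 4 * ((1 - g) * (1 + g)) := by
    intro g e h1 h2 h3
    have : 0 < 1 - g := by linarith
    have : 0 < 1 + g := by linarith
    positivity
  have hneK : ∀ g e : ℝ, -1 < g → g < 1 → 0 < e →
      e ^ 4 * (g * (1 - g)) ≠ e ^ 4 * ((1 - g) * (1 + g)) := by
    intro g e h1 h2 h3 h4
    have h5 := mul_left_cancel₀ (by positivity) h4
    have h6 : (1 - g) * g = (1 - g) * (1 + g) := by linarith
    have h7 := mul_left_cancel₀ (by linarith : (1 - g) ≠ 0) h6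
    linarith
  refine ⟨?_, ?_, ?_, ?_⟩
  · intro hS hS'
    have a1 := gS hD hS
    have a2 := gS hD hS'
    obtain ⟨y, y', hne, hy, hy'⟩ := S_ex hD hS hvw
    obtain ⟨z, z', b, b', hb, hb', hz, hz', j1, j2, j3⟩ := key hE hP hy hy'
    rw [S2 hS hy hy' hne] at j1
    rw [S1 hS hy, S1 hS' hz] at j2
    rw [S1 hS hy', S1 hS' hz'] at j3
    have hzz : z ≠ z' := by
      rintro rfl
      rw [S1 hS' hz] at j1
      exact hneK g e a1 hS.glt hS.epos
        (same (hposK g e a1 hS.glt hS.epos) hb hb' j1 j2 j3)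
    rw [S2 hS' hz hz' hzz] at j1
    refine ⟨cmp a1 hS.glt a2 hS'.glt hS.epos hS'.epos hb hb' j1 j2 j3, ?_⟩
    rw [← hS.len w hvw, ← hS'.len v hz.1, norm_sub_rev]
  · intro hX hX'
    have a1 : -1 < g := by linarith [hX.gpos]
    have a2 : -1 < g' := by linarith [hX'.gpos]
    obtain ⟨⟨y, y', hy, hy', hJ⟩, -⟩ := X_ex hD hX hvw
    obtain ⟨z, z', b, b', hb, hb', hz, hz', j1, j2, j3⟩ := key hE hP hy hy'
    rw [hJ] at j1
    rw [X1 hX hy, X1 hX' hz] at j2
    rw [X1 hX hy', X1 hX' hz'] at j3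
    have hzz : z ≠ z' := by
      rintro rfl
      rw [X1 hX' hz] at j1
      exact hneK g e a1 hX.glt hX.epos
        (same (hposK g e a1 hX.glt hX.epos) hb hb' j1 j2 j3)
    have hpos : 0 < b * b' * (e ^ 4 * (g * (1 - g))) := by
      have := hX.gpos
      have := hX.epos
      have : 0 < 1 - g := by linarith [hX.glt]
      positivity
    rcases X2 hX' hz hz' hzz with h1 | h1
    · rw [h1] at j1
      refine ⟨cmp a1 hX.glt a2 hX'.glt hX.epos hX'.epos hb hb' j1 j2 j3, ?_⟩
      rw [← hX.len w hvw, ← hX'.len v hz.1, norm_sub_rev]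
    · rw [h1] at j1
      exfalso
      have : 0 ≤ e' ^ 4 * (1 - g') ^ 2 := by positivity
      linarith
  · intro hX hS'
    have a1 : -1 < g := by linarith [hX.gpos]
    have a2 := gS hD hS'
    have k1 : 0 < 1 - g := by linarith [hX.glt]
    have k3 : 0 < 1 - g' := by linarith [hS'.glt]
    have k5 := hX.gpos
    have k6 := hX.epos
    have k7 := hS'.epos
    obtain ⟨⟨y, y', hy, hy', hJ⟩, ⟨u, u', hu, hu', hJ'⟩⟩ := X_ex hD hX hvw
    have hg1 : 0 < g' := by
      obtain ⟨z, z', b, b', hb, hb', hz, hz', j1, j2, j3⟩ := key hE hP hy hy'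
      rw [hJ] at j1
      rw [X1 hX hy, S1 hS' hz] at j2
      rw [X1 hX hy', S1 hS' hz'] at j3
      have hzz : z ≠ z' := by
        rintro rfl
        rw [S1 hS' hz] at j1
        exact hneK g e a1 hX.glt hX.epos
          (same (hposK g e a1 hX.glt hX.epos) hb hb' j1 j2 j3)
      rw [S2 hS' hz hz' hzz] at j1
      have hpos : 0 < b * b' * (e ^ 4 * (g * (1 - g))) := by positivity
      rw [← j1] at hpos
      by_contra hcon
      push Not at hcon
      have : e' ^ 4 * (g' * (1 - g')) ≤ 0 :=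
        mul_nonpos_of_nonneg_of_nonpos (by positivity) (mul_nonpos_of_nonpos_of_nonneg hcon k3.le)
      linarith
    obtain ⟨z, z', b, b', hb, hb', hz, hz', j1, j2, j3⟩ := key hE hP hu hu'
    rw [hJ'] at j1
    have hneg : b * b' * -(e ^ 4 * (1 - g) ^ 2) < 0 := by
      have : 0 < b * b' * (e ^ 4 * (1 - g) ^ 2) := by positivity
      linarith
    rw [← j1] at hneg
    by_cases hzz : z = z'
    · subst hzz
      rw [S1 hS' hz] at hneg
      have := hposK g' e' a2 hS'.glt hS'.epos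
      linarith
    · rw [S2 hS' hz hz' hzz] at hneg
      have : 0 < e' ^ 4 * (g' * (1 - g')) := by positivity
      linarith
  · intro hX hC'
    have a1 : -1 < g := by linarith [hX.gpos]
    have k1 : 0 < 1 - g := by linarith [hX.glt]
    have k5 := hX.gpos
    have k6 := hX.epos
    obtain ⟨⟨y, y', hy, hy', hJ⟩, -⟩ := X_ex hD hX hvw
    obtain ⟨z, z', b, b', hb, hb', hz, hz', j1, j2, j3⟩ := key hE hP hy hy'
    rw [hJ] at j1
    rw [X1 hX hy] at j2
    rw [X1 hX hy'] at j3
    have hzz : z ≠ z' := by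
      rintro rfl
      exact hneK g e a1 hX.glt hX.epos
        (same (hposK g e a1 hX.glt hX.epos) hb hb' j1 j2 j3)
    have h1 := C2 hD hC' hz hz' hzz
    rw [j1] at h1
    have hpos : 0 < b * b' * (e ^ 4 * (g * (1 - g))) := by positivity
    linarith


end Pool.Agent.T9h71.NK
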