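import Pool.Agent.T9h44.NK.Abs4

/-! Project NK (helper44, MP_727bc7_co), slope 4: piece X5 of `S_ABS4`. -/

set_option autoImplicit false

open scoped RealInnerProductSpace

namespace Pool.Agent.T9h71.NK

open Pool.Agent.T9h98.DC Pool.Agent.T9h44.NK

theorem num5 (b d q g e N : ℝ) (hb : 101 ≤ b) (h1 : b / 2 - 2 ≤ d) (h2 : d ≤ 0.64 * b) (hq0 : 0 < q) (hq1 : q < 1 / 4)
    (hg : g * (b - d) = 10 + d) (hN : 2 * N ≤ e) (he : e ≤ b) :
    100 * 1 + (d * (1 - q) + d ^ 2 * q) + g ^ 2 * ((b - d) * (1 - q) + (b - d) ^ 2 * q) + 20 * (d * (2 * q - 1))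
      - 20 * g * ((b - d) * q) - 2 * g * (d * (b - d) * q - (1 + q) * N) < 0 := by
  have hbd : 0 < b - d := by linarith
  have hd : 0 < d := by linarith
  have hg0 : 0 < g := by
    have : 0 < g * (b - d) := by rw [hg]; linarith
    exact (pos_iff_pos_of_mul_pos this).2 hbd
  have key : 100 * 1 + (d * (1 - q) + d ^ 2 * q) + g ^ 2 * ((b - d) * (1 - q) + (b - d) ^ 2 * q) + 20 * (d * (2 * q - 1))
      - 20 * g * ((b - d) * q) - 2 * g * (d * (b - d) * q - (1 + q) * N)
      = (1 - q) * (100 - 19 * d + g * (g * (b - d))) + g * (1 + q) * (2 * N) + q * (10 + d - g * (b - d)) ^ 2 := by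
    ring
  rw [key, hg]
  have h3 : g * (1 + q) * (2 * N) ≤ g * ((5 / 3) * (1 - q)) * b := by
    have a1 : g * (1 + q) * (2 * N) ≤ g * (1 + q) * b :=
      mul_le_mul_of_nonneg_left (by linarith) (by positivity)
    have a2 : g * (1 + q) * b ≤ g * ((5 / 3) * (1 - q)) * b := by
      apply mul_le_mul_of_nonneg_right _ (by linarith)
      exact mul_le_mul_of_nonneg_left (by linarith) hg0.le
    linarith
  have h4 : 100 - 19 * d + g * (10 + d + 5 / 3 * b) < 0 := by
    have h5 : (100 - 19 * d) * (b - d) + (10 + d) * (10 + d + 5 / 3 * b) < 0 := by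
      nlinarith [mul_nonneg (sub_nonneg.2 h1) (sub_nonneg.2 h2), mul_nonneg (sub_nonneg.2 hb) (sub_nonneg.2 h2),
        mul_nonneg (sub_nonneg.2 hb) (sub_nonneg.2 hb)]
    have h6 : (100 - 19 * d + g * (10 + d + 5 / 3 * b)) * (b - d) < 0 := by
      have : (100 - 19 * d + g * (10 + d + 5 / 3 * b)) * (b - d)
        = (100 - 19 * d) * (b - d) + (g * (b - d)) * (10 + d + 5 / 3 * b) := by ring
      rw [this, hg]; exact h5
    by_contra hc
    push Not at hc
    have := mul_nonneg hc hbd.le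
    linarith
  have h7 : (1 - q) * (100 - 19 * d + g * (10 + d + 5 / 3 * b)) < 0 := mul_neg_of_pos_of_neg (by linarith) h4
  have h8 : q * (10 + d - (10 + d)) ^ 2 = 0 := by ring
  rw [h8]
  nlinarith [h7, h3]

theorem x5 : S_X5 := by
  classical
  intro m q X hq0 hq1 hX x hx z hz hb he hd1 hd2
  obtain ⟨hu, hp, hs⟩ := hX
  have hzX : z ∈ X := by
    simp only [AA, Finset.mem_filter] at hz; exact hz.1
  have hxz : ⟪x, z⟫ = q := by
    simp only [AA, Finset.mem_filter] at hz; exact hz.2.2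
  have memU : ∀ y v : E m, v ∈ UU q X y ↔ v ∈ X ∧ v ≠ y ∧ ⟪y, v⟫ ≤ 2 * q - 1 := by
    intro y v; simp only [UU, Finset.mem_filter]
  set U := UU q X x with hU
  set D := UU q X z ∩ U with hD
  set F := U \ UU q X z with hF
  have hUX : ∀ v ∈ U, v ∈ X := fun v hv => ((memU x v).1 hv).1
  have hDU : ∀ v ∈ D, v ∈ U := fun v hv => (Finset.mem_inter.1 hv).2
  have hFU : ∀ v ∈ F, v ∈ U := fun v hv => (Finset.mem_sdiff.1 hv).1
  have hdisj : Disjoint D F := by
    rw [Finset.disjoint_left]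
    intro v hv hv'
    exact (Finset.mem_sdiff.1 hv').2 (Finset.mem_inter.1 hv).1
  have hun : D ∪ F = U := by
    ext v
    simp only [hD, hF, Finset.mem_union, Finset.mem_inter, Finset.mem_sdiff]
    tauto
  have hcard : D.card + F.card = U.card := by
    rw [← Finset.card_union_of_disjoint hdisj, hun]
  have hcr : (F.card : ℝ) = (U.card : ℝ) - D.card := by
    have : (D.card : ℝ) + F.card = U.card := by exact_mod_cast hcard
    linarith
  have hdd : (dd q X x z : ℝ) = D.card := by simp only [dd, hD, hU]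
  rw [hdd] at hd1 hd2
  set r : E m → E m → ℝ := fun i j => if j ∈ UU q X i then 1 else 0 with hr
  have hr0 : ∀ i j, 0 ≤ r i j := by
    intro i j; simp only [hr]; split_ifs <;> norm_num
  have hrs : ∀ i ∈ X, ∀ j ∈ X, r i j = r j i := by
    intro i hi j hj
    simp only [hr]
    have : (j ∈ UU q X i) ↔ (i ∈ UU q X j) := by
      rw [memU, memU, real_inner_comm i j]
      constructor
      · rintro ⟨_, h2, h3⟩; exact ⟨hi, h2.symm, h3⟩
      · rintro ⟨_, h2, h3⟩; exact ⟨hj, h2.symm, h3⟩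
    simp only [this]
  have hee : (ee q X x : ℝ) = ∑ i ∈ U, ∑ j ∈ U, r i j := by
    simp only [ee, ← hU]
    push_cast
    apply Finset.sum_congr rfl
    intro i _
    simp only [hr]
    rw [Finset.sum_ite_mem, Finset.sum_const, nsmul_eq_mul, mul_one, Finset.inter_comm]
  set N := ∑ i ∈ D, ∑ j ∈ F, r i j with hN
  have h2N : 2 * N ≤ (ee q X x : ℝ) := by
    rw [hee, ← hun, Finset.sum_union hdisj]
    have e1 : ∀ i, ∑ j ∈ D ∪ F, r i j = ∑ j ∈ D, r i j + ∑ j ∈ F, r i j := fun i => Finset.sum_union hdisj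
    simp only [e1, Finset.sum_add_distrib]
    have e2 : ∑ i ∈ F, ∑ j ∈ D, r i j = N := by
      rw [Finset.sum_comm, hN]
      apply Finset.sum_congr rfl
      intro i hi
      apply Finset.sum_congr rfl
      intro j hj
      exact hrs j (hUX j (hFU j hj)) i (hUX i (hDU i hi))
    have e3 : 0 ≤ ∑ i ∈ D, ∑ j ∈ D, r i j := Finset.sum_nonneg fun i _ => Finset.sum_nonneg fun j _ => hr0 i j
    have e4 : 0 ≤ ∑ i ∈ F, ∑ j ∈ F, r i j := Finset.sum_nonneg fun i _ => Finset.sum_nonneg fun j _ => hr0 i j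
    rw [e2, ← hN]
    linarith
  -- the general bound
  have hself : ∀ S : Finset (E m), (∀ v ∈ S, v ∈ X) → ⟪∑ i ∈ S, i, ∑ i ∈ S, i⟫ ≤ (S.card : ℝ) * (1 - q) + S.card ^ 2 * q := by
    intro S hS
    rw [sum_inner]
    simp only [inner_sum]
    have : ∀ i ∈ S, ∑ j ∈ S, ⟪i, j⟫ ≤ (1 - q) + S.card * q := by
      intro i hi
      have h1 : ∀ j ∈ S, ⟪i, j⟫ ≤ (if i = j then (1 - q) else 0) + q := by
        intro j hj
        by_cases hij : i = j
        · subst hij
          rw [real_inner_self_eq_norm_sq, hu i (hS i hi)]; simp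
        · simp only [hij, if_false, zero_add]
          rcases hp i (hS i hi) j (hS j hj) hij with h | h
          · exact h.le
          · linarith
      refine (Finset.sum_le_sum h1).trans ?_
      rw [Finset.sum_add_distrib, Finset.sum_ite_eq, if_pos hi, Finset.sum_const, nsmul_eq_mul]
    refine (Finset.sum_le_sum this).trans ?_
    rw [Finset.sum_const, nsmul_eq_mul]
    apply le_of_eq; ring
  have hzz : ⟪z, z⟫ = (1 : ℝ) := by rw [real_inner_self_eq_norm_sq, hu z hzX]; norm_num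
  have hDD := hself D fun v hv => hUX v (hDU v hv)
  have hFF := hself F fun v hv => hUX v (hFU v hv)
  have hzD : ⟪z, ∑ i ∈ D, i⟫ ≤ (D.card : ℝ) * (2 * q - 1) := by
    rw [inner_sum]
    refine (Finset.sum_le_sum (g := fun _ => 2 * q - 1) ?_).trans ?_
    · intro i hi
      exact ((memU z i).1 (Finset.mem_inter.1 hi).1).2.2
    · rw [Finset.sum_const, nsmul_eq_mul]
  have hzF : ⟪z, ∑ i ∈ F, i⟫ = (F.card : ℝ) * q := by
    rw [inner_sum, Finset.sum_congr rfl (g := fun _ => q), Finset.sum_const, nsmul_eq_mul]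
    intro i hi
    have hiX := hUX i (hFU i hi)
    have hne : i ≠ z := by
      rintro rfl
      have := ((memU x i).1 (hFU i hi)).2.2
      linarith
    rcases hp z hzX i hiX hne.symm with h | h
    · exact h
    · exact absurd ((memU z i).2 ⟨hiX, hne, h⟩) (Finset.mem_sdiff.1 hi).2
  have hDF : (D.card : ℝ) * F.card * q - (1 + q) * N ≤ ⟪∑ i ∈ D, i, ∑ i ∈ F, i⟫ := by
    rw [sum_inner]
    simp only [inner_sum]
    have h1 : ∀ i ∈ D, (F.card : ℝ) * q - (1 + q) * ∑ j ∈ F, r i j ≤ ∑ j ∈ F, ⟪i, j⟫ := by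
      intro i hi
      have h2 : (F.card : ℝ) * q - (1 + q) * ∑ j ∈ F, r i j = ∑ j ∈ F, (q - (1 + q) * r i j) := by
        rw [Finset.sum_sub_distrib, Finset.sum_const, nsmul_eq_mul, Finset.mul_sum]
      rw [h2]
      apply Finset.sum_le_sum
      intro j hj
      have hiX := hUX i (hDU i hi)
      have hjX := hUX j (hFU j hj)
      have hij : i ≠ j := fun h => (Finset.disjoint_left.1 hdisj) hi (h ▸ hj)
      rcases hp i hiX j hjX hij with h | h
      · rw [h]
        have := hr0 i j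
        nlinarith
      · have h3 : r i j = 1 := by
          simp only [hr]
          rw [if_pos ((memU i j).2 ⟨hjX, hij.symm, h⟩)]
        rw [h3]
        have h4 := abs_real_inner_le_norm i j
        rw [hu i hiX, hu j hjX] at h4
        have := (abs_le.1 h4).1
        linarith
    refine le_trans ?_ (Finset.sum_le_sum h1)
    rw [Finset.sum_sub_distrib, Finset.sum_const, nsmul_eq_mul, ← Finset.mul_sum]
    apply le_of_eq; ring
  have hb' : (101 : ℝ) ≤ U.card := by exact_mod_cast hb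
  have he' : (ee q X x : ℝ) ≤ U.card := by exact_mod_cast he.le
  have hpos : (0 : ℝ) < (U.card : ℝ) - D.card := by linarith
  obtain ⟨g, hg⟩ : ∃ g : ℝ, g * ((U.card : ℝ) - D.card) = 10 + D.card :=
    ⟨(10 + D.card) / ((U.card : ℝ) - D.card), div_mul_cancel₀ _ hpos.ne'⟩
  have hg0 : 0 < g := by
    have : 0 < g * ((U.card : ℝ) - D.card) := by rw [hg]; positivity
    exact (pos_iff_pos_of_mul_pos this).2 hpos
  have hnum := num5 (U.card : ℝ) D.card q g (ee q X x) N hb' hd1 hd2 hq0 hq1 hg h2N he'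
  have hw : 0 ≤ ⟪(10 : ℝ) • z + ∑ i ∈ D, i - g • ∑ i ∈ F, i, (10 : ℝ) • z + ∑ i ∈ D, i - g • ∑ i ∈ F, i⟫ :=
    real_inner_self_nonneg
  have hexp : ⟪(10 : ℝ) • z + ∑ i ∈ D, i - g • ∑ i ∈ F, i, (10 : ℝ) • z + ∑ i ∈ D, i - g • ∑ i ∈ F, i⟫
      = 100 * ⟪z, z⟫ + ⟪∑ i ∈ D, i, ∑ i ∈ D, i⟫ + g ^ 2 * ⟪∑ i ∈ F, i, ∑ i ∈ F, i⟫ + 20 * ⟪z, ∑ i ∈ D, i⟫
        - 20 * g * ⟪z, ∑ i ∈ F, i⟫ - 2 * g * ⟪∑ i ∈ D, i, ∑ i ∈ F, i⟫ := by
    simp only [inner_add_left, inner_add_right, inner_sub_left, inner_sub_right, real_inner_smul_left,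
      real_inner_smul_right]
    rw [real_inner_comm (∑ i ∈ D, i) z, real_inner_comm (∑ i ∈ F, i) z, real_inner_comm (∑ i ∈ F, i) (∑ i ∈ D, i)]
    ring
  rw [hexp, hzz, hzF] at hw
  rw [hcr] at hw hFF hDF
  have k1 : g ^ 2 * ⟪∑ i ∈ F, i, ∑ i ∈ F, i⟫ ≤ g ^ 2 * (((U.card : ℝ) - D.card) * (1 - q) + ((U.card : ℝ) - D.card) ^ 2 * q) :=
    mul_le_mul_of_nonneg_left hFF (by positivity)
  have k2 : 2 * g * ((D.card : ℝ) * ((U.card : ℝ) - D.card) * q - (1 + q) * N) ≤ 2 * g * ⟪∑ i ∈ D, i, ∑ i ∈ F, i⟫ :=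
    mul_le_mul_of_nonneg_left hDF (by positivity)
  linarith

end Pool.Agent.T9h71.NK
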